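import Pool.Agent.H84.NT.Targets3

/-!
# Near ties: the greedy bound for the blocks
-/

open MeasureTheory ProbabilityTheory
open scoped ENNReal NNReal

namespace Pool.Agent.H20.NT

open Pool.Agent.H99.NS Pool.Agent.H22.LPP Pool.Agent.H95.INS Pool.Agent.H84.NT

theorem meas_sup {ι Ω : Type*} [MeasurableSpace Ω] (F : Finset ι) (f : ι → Ω → ℝ≥0)
    (hf : ∀ i, Measurable (f i)) : Measurable (fun ω => F.sup (fun i => f i ω)) := by
  classical
  induction F using Finset.induction_on with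
  | empty => simp only [Finset.sup_empty]; exact measurable_const
  | insert a s _ ih =>
    simp only [Finset.sup_insert]
    exact (hf a).sup ih

/-- Preimages under measure preserving maps are not larger, for all sets. -/
theorem mp_preimage_le {Ω Ω' : Type*} [MeasurableSpace Ω] [MeasurableSpace Ω'] {μ : Measure Ω}
    {ν : Measure Ω'} {f : Ω → Ω'} (hf : MeasurePreserving f μ ν) (S : Set Ω') :
    μ (f ⁻¹' S) ≤ ν S := by
  calc μ (f ⁻¹' S) ≤ μ (f ⁻¹' toMeasurable ν S) :=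
        measure_mono (Set.preimage_mono (subset_toMeasurable ν S))
    _ = ν (toMeasurable ν S) :=
        hf.measure_preimage (measurableSet_toMeasurable ν S).nullMeasurableSet
    _ = ν S := measure_toMeasurable S

open Classical in
/-- Pairs of end points. -/
noncomputable def prs (b : ℕ) (s x x' : ℤ) : Finset (ℤ × ℤ) :=
  (Finset.Ico (16 ^ b * x) (16 ^ b * (x + 1)) ×ˢ
    Finset.Ico (16 ^ b * x') (16 ^ b * (x' + 1))).filter
      (fun p => Reach (s, p.1) (s + 64 ^ (b + 1), p.2))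

/-- Excess of a pair. -/
noncomputable def vl (q : ℝ) (b : ℕ) (s : ℤ) (p : ℤ × ℤ) (ω : Env) : ℝ :=
  (T ω (s, p.1) (s + 64 ^ (b + 1), p.2) -
    parS q (3 / 4) (s, p.1) (s + 64 ^ (b + 1), p.2)) / 4 ^ b

/-- The window supremum. -/
noncomputable def ZZ (q : ℝ) (b : ℕ) (s x x' : ℤ) (ω : Env) : ℝ :=
  (((prs b s x x').sup (fun p => Real.toNNReal (vl q b s p ω)) : ℝ≥0) : ℝ)

theorem measurable_ZZ (q : ℝ) (b : ℕ) (s x x' : ℤ) : Measurable (ZZ q b s x x') := by
  unfold ZZ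
  refine measurable_coe_nnreal_real.comp (meas_sup _ _ fun p => ?_)
  refine measurable_real_toNNReal.comp ?_
  unfold vl
  exact ((measurable_T _ _).sub_const _).div_const _

theorem ZZ_alt (q : ℝ) (b : ℕ) (s x x' : ℤ) (ω : Env) :
    ZZ q b s x x' ω = 0 ∨ ∃ y y' : ℤ, 16 ^ b * x ≤ y ∧ y < 16 ^ b * (x + 1) ∧ 16 ^ b * x' ≤ y' ∧
      y' < 16 ^ b * (x' + 1) ∧ Reach (s, y) (s + 64 ^ (b + 1), y') ∧
      ZZ q b s x x' ω = (T ω (s, y) (s + 64 ^ (b + 1), y') -
        parS q (3 / 4) (s, y) (s + 64 ^ (b + 1), y')) / 4 ^ b := by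
  classical
  rcases (prs b s x x').eq_empty_or_nonempty with h0 | hne
  · left; unfold ZZ; rw [h0]; simp
  · obtain ⟨p, hp, he⟩ := Finset.exists_mem_eq_sup (prs b s x x') hne
      (fun p => Real.toNNReal (vl q b s p ω))
    have h1 : ZZ q b s x x' ω = max (vl q b s p ω) 0 := by
      unfold ZZ; rw [he, Real.coe_toNNReal']
    rcases le_total (vl q b s p ω) 0 with h | h
    · left; rw [h1, max_eq_right h]
    · right
      unfold prs at hp
      rw [Finset.mem_filter, Finset.mem_product, Finset.mem_Ico, Finset.mem_Ico] at hp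
      refine ⟨p.1, p.2, hp.1.1.1, hp.1.1.2, hp.1.2.1, hp.1.2.2, hp.2, ?_⟩
      rw [h1, max_eq_left h]; rfl

theorem depOn_ZZ (q : ℝ) (b : ℕ) (s x x' : ℤ) :
    DepOn (slab s (s + 64 ^ (b + 1))) (ZZ q b s x x') := by
  intro ω ω' h
  unfold ZZ
  congr 1
  refine Finset.sup_congr rfl fun p _ => ?_
  unfold vl
  have h1 : T ω (s, p.1) (s + 64 ^ (b + 1), p.2) = T ω' (s, p.1) (s + 64 ^ (b + 1), p.2) :=
    depOn_T_slab (s := s) (t := s + 64 ^ (b + 1)) (u := (s, p.1))
      (v := (s + 64 ^ (b + 1), p.2)) le_rfl le_rfl ω ω' h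
  rw [h1]

theorem gauss_sum (κ : ℝ) (hκ : 0 < κ) :
    Summable (fun D : ℤ => Real.exp (-(κ * (D : ℝ) ^ 2))) := by
  have hr1 : Real.exp (-κ) < 1 := by rw [Real.exp_lt_one_iff]; linarith
  have hn : Summable (fun n : ℕ => Real.exp (-(κ * (n : ℝ) ^ 2))) := by
    refine Summable.of_nonneg_of_le (fun n => (Real.exp_pos _).le) (fun n => ?_)
      (summable_geometric_of_lt_one (Real.exp_pos (-κ)).le hr1)
    rw [← Real.exp_nat_mul]
    apply Real.exp_le_exp.2
    have : (n : ℝ) ≤ (n : ℝ) ^ 2 := by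
      rcases Nat.eq_zero_or_pos n with rfl | h
      · simp
      · have : (1 : ℝ) ≤ n := by exact_mod_cast h
        nlinarith
    nlinarith
  rw [summable_int_iff_summable_nat_and_neg]
  refine ⟨by simpa using hn, ?_⟩
  have : (fun n : ℕ => Real.exp (-(κ * ((-(n : ℤ) : ℤ) : ℝ) ^ 2))) =
      fun n : ℕ => Real.exp (-(κ * (n : ℝ) ^ 2)) := by
    funext n; push_cast; ring_nf
  rw [this]; exact hn

theorem div_near {k u v L : ℤ} (hk : 1 ≤ k) (hL : 1 ≤ L) (h : u - v ≤ L) :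
    u / k - v / k ≤ L + 1 := by
  have e1 : k * (u / k) ≤ u := Int.mul_ediv_self_le (by omega)
  have e2 : v < k * (v / k) + k := Int.lt_mul_ediv_self_add (by omega)
  by_contra hcon
  push Not at hcon
  have : k * (L + 2) ≤ k * (u / k - v / k) := mul_le_mul_of_nonneg_left (by omega) (by omega)
  nlinarith

theorem pf_GRP : T_GRP := by
  classical
  intro hGR hZEX hSUP q hq0 hq1
  obtain ⟨C, θ, hC1, hθ, hZ⟩ := hZEX hSUP q hq0 hq1
  have hsg := sg_pos hq0 hq1
  set pen : ℤ → ℝ := fun D => sg q / 1024 * (D : ℝ) ^ 2 with hpen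
  set S : ℝ := max 1 (∑' D : ℤ, Real.exp (-(θ * (sg q / 1024) * (D : ℝ) ^ 2))) with hS
  have hS1 : 1 ≤ S := le_max_left _ _
  have hsum := gauss_sum (θ * (sg q / 1024)) (by positivity)
  have hlog : 0 ≤ Real.log (C * S) := Real.log_nonneg (by nlinarith)
  refine ⟨(Real.log (C * S) + 1) / θ, by positivity, ?_⟩
  intro p s0 i0 b n
  have hL0 : (0 : ℤ) < 64 ^ (b + 1) := by positivity
  have h16 : (1 : ℤ) ≤ 16 ^ b := one_le_pow₀ (by norm_num)
  have key := hGR q (64 ^ (b + 1)) (64 ^ (b + 1) + 1)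
    (fun l D x ω => ZZ q b ((l : ℤ) * 64 ^ (b + 1)) x (x + D) ω) pen θ C S hL0 hθ hC1 hS1
    (fun l D x => measurable_ZZ _ _ _ _ _)
    (fun l D x => by
      have h := depOn_ZZ q b ((l : ℤ) * 64 ^ (b + 1)) x (x + D)
      have e : ((l : ℤ) + 1) * 64 ^ (b + 1) = (l : ℤ) * 64 ^ (b + 1) + 64 ^ (b + 1) := by ring
      rw [e]; exact h)
    (fun l D x => hZ b _ x (x + D) _ (measurable_ZZ _ _ _ _ _) (ZZ_alt q b _ x (x + D)))
    (by
      refine le_trans ?_ (le_max_right _ _)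
      have : ∀ D : ℤ, Real.exp (-θ * pen D) =
          Real.exp (-(θ * (sg q / 1024) * (D : ℝ) ^ 2)) := by
        intro D; rw [hpen]; congr 1; ring
      simp only [this]
      exact hsum.sum_le_tsum _ (fun D _ => (Real.exp_pos _).le))
    n i0
  refine le_trans ?_ key
  -- inclusion
  set EvR : Set Env := {ω | ∃ x : ℕ → ℤ, x 0 = i0 ∧
      (∀ l < n, |x (l + 1) - x l| ≤ ((64 ^ (b + 1) + 1 : ℕ) : ℤ)) ∧
      (Real.log (C * S) + 1) / θ * n ≤
        ∑ l ∈ Finset.range n, ((fun (l : ℕ) (D x : ℤ) (ω : Env) =>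
          ZZ q b ((l : ℤ) * 64 ^ (b + 1)) x (x + D) ω) l (x (l + 1) - x l) (x l) ω -
            pen (x (l + 1) - x l))} with hEvR
  have hmp := mp_preimage_le (mp_shiftE q (s0, p)) EvR
  have hmp' : (PE q).real (shiftE (s0, p) ⁻¹' EvR) ≤ (PE q).real EvR := by
    unfold Measure.real
    exact ENNReal.toReal_mono (measure_ne_top _ _) hmp
  refine le_trans (measureReal_mono ?_ (measure_ne_top _ _)) hmp'
  rintro ω ⟨g, hg, hg0, hgS⟩
  have hsb : ∀ l : ℕ, sb s0 b (l + 1) = sb s0 b l + 64 ^ (b + 1) := by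
    intro l; unfold sb; push_cast; ring
  have hsb0 : ∀ l : ℕ, s0 ≤ sb s0 b l := by
    intro l; unfold sb
    have : (0 : ℤ) ≤ (l : ℤ) * 64 ^ (b + 1) := by positivity
    omega
  have hsbn : ∀ l : ℕ, l < n → sb s0 b l + 64 ^ (b + 1) ≤ s0 + n * 64 ^ (b + 1) := by
    intro l hl
    unfold sb
    have h1 : (l : ℤ) + 1 ≤ n := by exact_mod_cast hl
    nlinarith
  refine ⟨fun l => wi p b (g (sb s0 b l)), ?_, ?_, ?_⟩
  · simp only [sb]
    push_cast
    rw [zero_mul, add_zero]; exact hg0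
  · intro l hl
    simp only
    rw [hsb]
    have h1 := (path_lip hg (hsb0 l) (by omega : sb s0 b l ≤ sb s0 b l + 64 ^ (b + 1))
      (hsbn l hl)).1
    rw [add_sub_cancel_left] at h1
    rw [abs_le] at h1
    unfold wi
    push_cast
    rw [abs_le]
    have hL1 : (1 : ℤ) ≤ 64 ^ (b + 1) := by omega
    constructor
    · have := div_near (k := 16 ^ b) (u := g (sb s0 b l) - p)
        (v := g (sb s0 b l + 64 ^ (b + 1)) - p) (L := 64 ^ (b + 1)) h16 hL1 (by omega)
      omega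
    · have := div_near (k := 16 ^ b) (u := g (sb s0 b l + 64 ^ (b + 1)) - p)
        (v := g (sb s0 b l) - p) (L := 64 ^ (b + 1)) h16 hL1 (by omega)
      omega
  · refine hgS.trans ?_
    unfold GRs
    refine Finset.sum_le_sum fun l hl => ?_
    rw [Finset.mem_range] at hl
    simp only
    have hD : wi p b (g (sb s0 b (l + 1))) - wi p b (g (sb s0 b l)) =
        dwi p b (sb s0 b l) g := by
      unfold dwi; rw [hsb]
    rw [hD, hpen]
    refine sub_le_sub_right ?_ _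
    have hxD : wi p b (g (sb s0 b l)) + dwi p b (sb s0 b l) g =
        wi p b (g (sb s0 b l + 64 ^ (b + 1))) := by unfold dwi; ring
    rw [hxD]
    set s : ℤ := sb s0 b l with hs
    obtain ⟨hlip, hpar⟩ := path_lip hg (hsb0 l) (by omega : s ≤ s + 64 ^ (b + 1)) (hsbn l hl)
    rw [add_sub_cancel_left] at hlip hpar
    have hmem : (g s - p, g (s + 64 ^ (b + 1)) - p) ∈
        prs b ((l : ℤ) * 64 ^ (b + 1)) (wi p b (g s)) (wi p b (g (s + 64 ^ (b + 1)))) := by
      unfold prs wi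
      rw [Finset.mem_filter, Finset.mem_product, Finset.mem_Ico, Finset.mem_Ico]
      have hw : ∀ u : ℤ, 16 ^ b * (u / 16 ^ b) ≤ u ∧ u < 16 ^ b * (u / 16 ^ b + 1) := by
        intro u
        have e1 : (16 : ℤ) ^ b * (u / 16 ^ b) ≤ u := Int.mul_ediv_self_le (by omega)
        have e2 : u < (16 : ℤ) ^ b * (u / 16 ^ b) + 16 ^ b := Int.lt_mul_ediv_self_add (by omega)
        refine ⟨e1, ?_⟩
        rw [mul_add, mul_one]; exact e2
      refine ⟨⟨hw _, hw _⟩, ?_⟩
      unfold Reach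
      simp only
      rw [add_sub_cancel_left]
      have : g (s + 64 ^ (b + 1)) - p - (g s - p) = g (s + 64 ^ (b + 1)) - g s := by ring
      rw [this]
      exact ⟨hlip, hpar⟩
    have hle : Real.toNNReal (vl q b ((l : ℤ) * 64 ^ (b + 1))
        (g s - p, g (s + 64 ^ (b + 1)) - p) (shiftE (s0, p) ω)) ≤
        (prs b ((l : ℤ) * 64 ^ (b + 1)) (wi p b (g s))
          (wi p b (g (s + 64 ^ (b + 1))))).sup (fun p' => Real.toNNReal
            (vl q b ((l : ℤ) * 64 ^ (b + 1)) p' (shiftE (s0, p) ω))) :=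
      Finset.le_sup (f := fun p' => Real.toNNReal
            (vl q b ((l : ℤ) * 64 ^ (b + 1)) p' (shiftE (s0, p) ω))) hmem
    have hle' : ((Real.toNNReal (vl q b ((l : ℤ) * 64 ^ (b + 1))
        (g s - p, g (s + 64 ^ (b + 1)) - p) (shiftE (s0, p) ω)) : ℝ≥0) : ℝ) ≤
        ZZ q b ((l : ℤ) * 64 ^ (b + 1)) (wi p b (g s)) (wi p b (g (s + 64 ^ (b + 1))))
          (shiftE (s0, p) ω) := by
      unfold ZZ; exact_mod_cast hle
    refine le_trans ?_ hle'
    rw [Real.coe_toNNReal']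
    have hv : (wt ω s (s + 64 ^ (b + 1)) g -
        parS q (3 / 4) (s, g s) (s + 64 ^ (b + 1), g (s + 64 ^ (b + 1)))) / 4 ^ b ≤
        vl q b ((l : ℤ) * 64 ^ (b + 1)) (g s - p, g (s + 64 ^ (b + 1)) - p)
          (shiftE (s0, p) ω) := by
      unfold vl
      have hT : T (shiftE (s0, p) ω) ((l : ℤ) * 64 ^ (b + 1), g s - p)
          ((l : ℤ) * 64 ^ (b + 1) + 64 ^ (b + 1), g (s + 64 ^ (b + 1)) - p) =
          T ω (s, g s) (s + 64 ^ (b + 1), g (s + 64 ^ (b + 1))) := by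
        rw [T_shift]
        congr 1
        · ext
          · simp only [Prod.fst_add, hs, sb]; ring
          · simp only [Prod.snd_add]; ring
        · ext
          · simp only [Prod.fst_add, hs, sb]; ring
          · simp only [Prod.snd_add]; ring
      have hwt : wt ω s (s + 64 ^ (b + 1)) g ≤
          T ω (s, g s) (s + 64 ^ (b + 1), g (s + 64 ^ (b + 1))) :=
        le_T ω (u := (s, g s)) (v := (s + 64 ^ (b + 1), g (s + 64 ^ (b + 1)))) (by simp only; omega)
          ⟨fun r h1 h2 => hg r ((hsb0 l).trans h1) (lt_of_lt_of_le h2 (hsbn l hl)), rfl, rfl⟩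
      have hpS : parS q (3 / 4) ((l : ℤ) * 64 ^ (b + 1), g s - p)
          ((l : ℤ) * 64 ^ (b + 1) + 64 ^ (b + 1), g (s + 64 ^ (b + 1)) - p) =
          parS q (3 / 4) (s, g s) (s + 64 ^ (b + 1), g (s + 64 ^ (b + 1))) := by
        unfold parS dt dx
        simp only
        rw [show (l : ℤ) * 64 ^ (b + 1) + 64 ^ (b + 1) - (l : ℤ) * 64 ^ (b + 1) =
          s + 64 ^ (b + 1) - s by ring,
          show g (s + 64 ^ (b + 1)) - p - (g s - p) = g (s + 64 ^ (b + 1)) - g s by ring]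
      rw [hT, hpS]
      gcongr
    unfold exl
    rw [max_comm]
    exact max_le_max hv le_rfl

end Pool.Agent.H20.NT
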