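import Pool.Agent.H84.NT.Targets3

/-!
# Near ties: sum over the blocks and over the positions
-/

open MeasureTheory ProbabilityTheory
open scoped ENNReal

namespace Pool.Agent.H20.NT

open Pool.Agent.H99.NS Pool.Agent.H22.LPP Pool.Agent.H95.INS Pool.Agent.H84.NT

/-- Positions `i` with `|t - w i| < A w`. -/
theorem mem_window {t w A i : ℤ} (hw : 1 ≤ w) (h : |t - w * i| < A * w) :
    i ∈ Finset.Icc (t / w - A + 1) (t / w + A) := by
  rw [abs_lt] at h
  obtain ⟨h1, h2⟩ := h
  have e1 : w * (t / w) ≤ t := Int.mul_ediv_self_le (by omega)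
  have e2 : t < w * (t / w) + w := Int.lt_mul_ediv_self_add (by omega)
  rw [Finset.mem_Icc]
  constructor
  · have : w * (t / w - A) < w * i := by nlinarith
    have := lt_of_mul_lt_mul_left this (by omega)
    omega
  · have : w * i < w * (t / w + A + 1) := by nlinarith
    have := lt_of_mul_lt_mul_left this (by omega)
    omega

theorem pf_SWS (h_SW1 : T_SW1) (h_SWG : T_SWG) (h_SWD : T_SWD) (h_DED : T_DED) (h_FIM : T_FIM)
    (h_LAMM : B_LAMM) : T_SWS := by
  classical
  intro D Da o e s0 x0 j' n I hOk hAw hLO hre hn c hc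
  -- notation
  let a : ℕ × ℤ → Site := fun p => (c p.1, x0 + D.w * p.2)
  let GG : ℕ × ℤ → Env → Prop := fun p ω => ∃ y : ℤ,
    SwG D Da (j' - c p.1, y) (s0 - c p.1) (s0 + 512 * n * D.n - c p.1) ω (o - a p) (e - a p)
  let EE : ℕ × ℤ → Env → Prop := fun p ω =>
    DE D (s0 - c p.1) (s0 + 512 * n * D.n - c p.1) ω (o - a p) (e - a p) ∧
      |Lam ω (o - a p) (e - a p) 0| < D.A * D.w
  let G : ℕ × ℤ → Set Env := fun p => {ω | GG p (shiftE (a p) ω)}
  let E : ℕ × ℤ → Set Env := fun p => {ω | EE p (shiftE (a p) ω)}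
  let P : Finset (ℕ × ℤ) := Finset.range n ×ˢ I
  have hre' : ∀ p, Reach (o - a p) (e - a p) := by
    intro p
    have h := hre
    unfold Reach at h ⊢
    simp only [Prod.fst_sub, Prod.snd_sub]
    rw [show e.2 - (a p).2 - (o.2 - (a p).2) = e.2 - o.2 by ring,
      show e.1 - (a p).1 - (o.1 - (a p).1) = e.1 - o.1 by ring]
    exact h
  have hdep : ∀ p, ∃ S : Finset Site, DepOn (S : Set Site) (GG p) ∧
      DepOn (S : Set Site) (EE p) := by
    intro p
    obtain ⟨S, h1, h2⟩ := h_SWD D Da (o - a p) (e - a p) (j' - c p.1) (s0 - c p.1)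
      (s0 + 512 * n * D.n - c p.1) (hre' p)
    refine ⟨S, ?_, h2⟩
    intro ω ω' hω
    have : ∀ y, _ := fun y => h1 y ω ω' hω
    change (∃ y : ℤ, _) = (∃ y : ℤ, _)
    simp only at this
    apply propext
    constructor
    · rintro ⟨y, hy⟩; exact ⟨y, (this y) ▸ hy⟩
    · rintro ⟨y, hy⟩; exact ⟨y, (this y).symm ▸ hy⟩
  have hGm0 : ∀ p, MeasurableSet {ω | GG p ω} := by
    intro p
    obtain ⟨S, h1, -⟩ := hdep p
    exact h_FIM _ _ S.finite_toSet h1
  have hEm0 : ∀ p, MeasurableSet {ω | EE p ω} := by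
    intro p
    obtain ⟨S, -, h2⟩ := hdep p
    exact h_FIM _ _ S.finite_toSet h2
  have hGm : ∀ p, MeasurableSet (G p) := fun p =>
    (mp_shiftE D.q (a p)).measurable (hGm0 p)
  have hEm : ∀ p, MeasurableSet (E p) := fun p =>
    (mp_shiftE D.q (a p)).measurable (hEm0 p)
  have hGE : ∀ p, pH D ^ 2 / 4 * PE D.q (G p) ≤ PE D.q (E p) := by
    intro p
    obtain ⟨S, h1, h2⟩ := hdep p
    have h3 := h_SWG D.q S (Bx D) (GG p) (EE p) (pH D ^ 2 / 4) h1 h2 (by
      rintro ω ⟨y, hy⟩
      exact h_SW1 D Da _ _ _ ω _ _ hAw hLO hy)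
    have e1 : PE D.q (G p) = PE D.q {ω | GG p ω} :=
      (mp_shiftE D.q (a p)).measure_preimage (hGm0 p).nullMeasurableSet
    have e2 : PE D.q (E p) = PE D.q {ω | EE p ω} :=
      (mp_shiftE D.q (a p)).measure_preimage (hEm0 p).nullMeasurableSet
    rw [e1, e2]; exact h3
  obtain ⟨A', hA'⟩ : ∃ A' : ℕ, D.A = A' := ⟨D.A.toNat, by
    have := hOk.A2; omega⟩
  -- pointwise bound
  have hpt : ∀ ω, (P.filter (fun p => ω ∈ E p)).card ≤ 2 * A' := by
    intro ω
    rcases (P.filter (fun p => ω ∈ E p)).eq_empty_or_nonempty with h0 | ⟨p0, hp0⟩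
    · rw [h0]; simp
    · rw [Finset.mem_filter] at hp0
      have hl : ∀ p ∈ P.filter (fun p => ω ∈ E p), p.1 = p0.1 := by
        intro p hp
        rw [Finset.mem_filter] at hp
        by_contra hne
        have hlt : p.1 < n := Finset.mem_range.1 (Finset.mem_product.1 hp.1).1
        have hlt0 : p0.1 < n := Finset.mem_range.1 (Finset.mem_product.1 hp0.1).1
        have hn1 := hOk.n1
        have key : ∀ l : ℕ, l < n → s0 ≤ c l - 256 * D.n ∧
            c l + 256 * D.n ≤ s0 + 512 * n * D.n := by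
          intro l hl
          rw [hc l]
          have h1 : (l : ℤ) + 1 ≤ n := by exact_mod_cast hl
          have h2 : (0 : ℤ) ≤ l := Int.natCast_nonneg l
          constructor <;> nlinarith
        refine h_DED D ω o e s0 (s0 + 512 * n * D.n) (c p.1) (c p0.1) (x0 + D.w * p.2)
          (x0 + D.w * p0.2) (by omega) (key _ hlt).1 (key _ hlt).2 (key _ hlt0).1
          (key _ hlt0).2 ?_ ⟨hp.2.1, hp0.2.1⟩
        rw [hc, hc]
        have : s0 + (512 * (p.1 : ℤ) + 256) * D.n - (s0 + (512 * (p0.1 : ℤ) + 256) * D.n) =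
            512 * ((p.1 : ℤ) - p0.1) * D.n := by ring
        rw [this, abs_mul, abs_mul, abs_of_nonneg (by omega : (0 : ℤ) ≤ D.n)]
        have h3 : (1 : ℤ) ≤ |(p.1 : ℤ) - p0.1| := by
          apply Int.one_le_abs
          intro h
          apply hne
          omega
        have h4 : |(512 : ℤ)| = 512 := by norm_num
        rw [h4]
        nlinarith
      set t : ℤ := Lam ω o e (c p0.1) - x0 with ht
      have hmaps : ∀ p ∈ P.filter (fun p => ω ∈ E p),
          p.2 ∈ Finset.Icc (t / D.w - D.A + 1) (t / D.w + D.A) := by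
        intro p hp
        have hpl := hl p hp
        rw [Finset.mem_filter] at hp
        apply mem_window hOk.w1
        have h1 := hp.2.2
        have h2 := (h_LAMM (o - a p) (e - a p) 0).2.2 (a p) ω (hre' p)
        rw [sub_add_cancel, sub_add_cancel] at h2
        have h3 : Lam (shiftE (a p) ω) (o - a p) (e - a p) 0 = t - D.w * p.2 := by
          have h4 : (a p).1 = c p0.1 := by simp only [a]; rw [hpl]
          have h5 : (a p).2 = x0 + D.w * p.2 := rfl
          rw [h4, h5, zero_add] at h2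
          rw [ht]; linarith
        rw [← h3]; exact h1
      have hinj : Set.InjOn Prod.snd (P.filter (fun p => ω ∈ E p) : Set (ℕ × ℤ)) := by
        intro p hp p' hp' h
        exact Prod.ext ((hl p hp).trans (hl p' hp').symm) h
      have hcard := Finset.card_le_card_of_injOn Prod.snd hmaps hinj
      refine hcard.trans ?_
      rw [Int.card_Icc, hA']
      omega
  have hsumE : ∑ p ∈ P, PE D.q (E p) ≤ ((2 * A' : ℕ) : ℝ≥0∞) := by
    calc ∑ p ∈ P, PE D.q (E p) = ∑ p ∈ P, ∫⁻ ω, (E p).indicator (fun _ => (1 : ℝ≥0∞)) ω ∂(PE D.q) := by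
          refine Finset.sum_congr rfl fun p _ => ?_
          rw [lintegral_indicator (hEm p), lintegral_const, one_mul, Measure.restrict_apply_univ]
      _ = ∫⁻ ω, ∑ p ∈ P, (E p).indicator (fun _ => (1 : ℝ≥0∞)) ω ∂(PE D.q) := by
          rw [lintegral_finsetSum]
          intro p _
          exact measurable_const.indicator (hEm p)
      _ ≤ ∫⁻ ω, ((2 * A' : ℕ) : ℝ≥0∞) ∂(PE D.q) := by
          refine lintegral_mono fun ω => ?_
          have : ∑ p ∈ P, (E p).indicator (fun _ => (1 : ℝ≥0∞)) ω =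
              ((P.filter (fun p => ω ∈ E p)).card : ℝ≥0∞) := by
            rw [Finset.card_filter, Nat.cast_sum]
            refine Finset.sum_congr rfl fun p _ => ?_
            by_cases h : ω ∈ E p
            · rw [Set.indicator_of_mem h, if_pos h]; simp
            · rw [Set.indicator_of_notMem h, if_neg h]; simp
          rw [this]
          exact Nat.cast_le.2 (hpt ω)
      _ = ((2 * A' : ℕ) : ℝ≥0∞) := by simp
  -- Markov
  set Ev : Set Env := {ω | (n : ℝ) ≤ 2 * (((Finset.range n).filter (fun l : ℕ => ∃ i ∈ I, ∃ y : ℤ,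
      SwG D Da (j' - c l, y) (s0 - c l) (s0 + 512 * n * D.n - c l)
        (shiftE (c l, x0 + D.w * i) ω) (o - (c l, x0 + D.w * i))
        (e - (c l, x0 + D.w * i)))).card : ℝ)} with hEv
  have hMar : (n : ℝ≥0∞) * PE D.q Ev ≤ 2 * ∑ p ∈ P, PE D.q (G p) := by
    have hsub : Ev ⊆ {ω | (n : ℝ≥0∞) ≤ 2 * ∑ p ∈ P, (G p).indicator (fun _ => (1 : ℝ≥0∞)) ω} := by
      intro ω hω
      set F : Finset ℕ := (Finset.range n).filter (fun l : ℕ => ∃ i ∈ I, ∃ y : ℤ,
        SwG D Da (j' - c l, y) (s0 - c l) (s0 + 512 * n * D.n - c l)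
        (shiftE (c l, x0 + D.w * i) ω) (o - (c l, x0 + D.w * i))
        (e - (c l, x0 + D.w * i))) with hF
      have h1 : n ≤ 2 * F.card := by
        have h1' : (n : ℝ) ≤ 2 * (F.card : ℝ) := hω
        exact_mod_cast h1'
      have h2 : F.card ≤ (P.filter (fun p => ω ∈ G p)).card := by
        refine le_trans (Finset.card_le_card ?_) (Finset.card_image_le (f := Prod.fst))
        intro l hl
        rw [hF, Finset.mem_filter] at hl
        obtain ⟨hl1, i, hi, hy⟩ := hl
        rw [Finset.mem_image]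
        refine ⟨(l, i), ?_, rfl⟩
        rw [Finset.mem_filter]
        exact ⟨Finset.mem_product.2 ⟨hl1, hi⟩, hy⟩
      have h3 : ∑ p ∈ P, (G p).indicator (fun _ => (1 : ℝ≥0∞)) ω =
          ((P.filter (fun p => ω ∈ G p)).card : ℝ≥0∞) := by
        rw [Finset.card_filter, Nat.cast_sum]
        refine Finset.sum_congr rfl fun p _ => ?_
        by_cases h : ω ∈ G p
        · rw [Set.indicator_of_mem h, if_pos h]; simp
        · rw [Set.indicator_of_notMem h, if_neg h]; simp
      simp only [Set.mem_setOf_eq]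
      rw [h3]
      have h4 : n ≤ 2 * (P.filter (fun p => ω ∈ G p)).card := by omega
      exact_mod_cast h4
    have hmeas : Measurable fun ω => 2 * ∑ p ∈ P, (G p).indicator (fun _ => (1 : ℝ≥0∞)) ω := by
      refine Measurable.const_mul ?_ _
      refine Finset.measurable_fun_sum _ fun p _ => ?_
      exact measurable_const.indicator (hGm p)
    calc (n : ℝ≥0∞) * PE D.q Ev ≤ (n : ℝ≥0∞) * PE D.q {ω | (n : ℝ≥0∞) ≤
          2 * ∑ p ∈ P, (G p).indicator (fun _ => (1 : ℝ≥0∞)) ω} := by gcongr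
      _ ≤ ∫⁻ ω, 2 * ∑ p ∈ P, (G p).indicator (fun _ => (1 : ℝ≥0∞)) ω ∂(PE D.q) :=
          mul_meas_ge_le_lintegral hmeas _
      _ = 2 * ∑ p ∈ P, PE D.q (G p) := by
          rw [lintegral_const_mul]
          · rw [lintegral_finsetSum _ (fun p _ => measurable_const.indicator (hGm p))]
            congr 1
            refine Finset.sum_congr rfl fun p _ => ?_
            rw [lintegral_indicator (hGm p), lintegral_const, one_mul, Measure.restrict_apply_univ]
          · exact Finset.measurable_fun_sum _ fun p _ => measurable_const.indicator (hGm p)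
  have hGs : pH D ^ 2 / 4 * ∑ p ∈ P, PE D.q (G p) ≤ ((2 * A' : ℕ) : ℝ≥0∞) := by
    rw [Finset.mul_sum]
    exact (Finset.sum_le_sum fun p _ => hGE p).trans hsumE
  have hn0 : (0 : ℝ) < n := by exact_mod_cast hn
  have hA2 : 2 ≤ A' := by have := hOk.A2; omega
  have hRHS : ENNReal.ofReal (16 * D.A / n) = ((16 * A' : ℕ) : ℝ≥0∞) / n := by
    rw [ENNReal.ofReal_div_of_pos hn0, ENNReal.ofReal_natCast]
    congr 1
    rw [hA']
    rw [← ENNReal.ofReal_natCast]
    congr 1
    push_cast; ring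
  rw [hRHS]
  have hne0 : ((16 * A' : ℕ) : ℝ≥0∞) / n ≠ 0 := by
    rw [Ne, ENNReal.div_eq_zero_iff, not_or]
    exact ⟨by simp; omega, ENNReal.natCast_ne_top n⟩
  have hpH : pH D ^ 2 ≠ ∞ := ENNReal.pow_ne_top (measure_ne_top _ _)
  rw [ENNReal.le_div_iff_mul_le (Or.inr hne0) (Or.inl hpH),
    ENNReal.le_div_iff_mul_le (Or.inl (by simp; omega)) (Or.inl (ENNReal.natCast_ne_top n))]
  calc PE D.q Ev * pH D ^ 2 * n = pH D ^ 2 * ((n : ℝ≥0∞) * PE D.q Ev) := by ring
    _ ≤ pH D ^ 2 * (2 * ∑ p ∈ P, PE D.q (G p)) := by gcongr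
    _ = 8 * (pH D ^ 2 / 4 * ∑ p ∈ P, PE D.q (G p)) := by
        rw [ENNReal.div_eq_inv_mul]
        have h84 : (8 : ℝ≥0∞) * 4⁻¹ = 2 := by
          rw [show (8 : ℝ≥0∞) = 2 * 4 by norm_num, mul_assoc,
            ENNReal.mul_inv_cancel (by norm_num) (by norm_num), mul_one]
        calc pH D ^ 2 * (2 * ∑ p ∈ P, PE D.q (G p)) =
            2 * (pH D ^ 2 * ∑ p ∈ P, PE D.q (G p)) := by ring
          _ = (8 * 4⁻¹) * (pH D ^ 2 * ∑ p ∈ P, PE D.q (G p)) := by rw [h84]
          _ = 8 * (4⁻¹ * pH D ^ 2 * ∑ p ∈ P, PE D.q (G p)) := by ring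
    _ ≤ 8 * ((2 * A' : ℕ) : ℝ≥0∞) := by gcongr
    _ = ((16 * A' : ℕ) : ℝ≥0∞) := by push_cast; ring

end Pool.Agent.H20.NT
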