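import Pool.Agent.H84.NT.Targets3

/-!
# Near ties: exponential moments of the window suprema
-/

open MeasureTheory ProbabilityTheory
open scoped ENNReal

namespace Pool.Agent.H20.NT

open Pool.Agent.H99.NS Pool.Agent.H22.LPP Pool.Agent.H95.INS Pool.Agent.H84.NT

/-- Exponential moment from exponential tails. -/
theorem exp_moment {Ω : Type*} [MeasurableSpace Ω] (μ : Measure Ω) [IsProbabilityMeasure μ]
    (Z : Ω → ℝ) (hZ : Measurable Z) (C0 θ : ℝ) (hC0 : 0 ≤ C0) (hθ : 0 < θ)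
    (h : ∀ k : ℕ, μ.real {ω | (k : ℝ) + 1 ≤ Z ω} ≤ C0 * Real.exp (-(2 * θ) * (k + 1))) :
    ∫⁻ ω, ENNReal.ofReal (Real.exp (θ * Z ω)) ∂μ ≤
      ENNReal.ofReal (Real.exp θ + C0 / (1 - Real.exp (-θ))) := by
  have hr1 : Real.exp (-θ) < 1 := by rw [Real.exp_lt_one_iff]; linarith
  have hr0 : 0 ≤ Real.exp (-θ) := (Real.exp_pos _).le
  have hmeas : ∀ k : ℕ, MeasurableSet {ω | (k : ℝ) + 1 ≤ Z ω} := fun k =>
    measurableSet_le measurable_const hZ
  have hpt : ∀ ω, ENNReal.ofReal (Real.exp (θ * Z ω)) ≤ ENNReal.ofReal (Real.exp θ) +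
      ∑' k : ℕ, ENNReal.ofReal (Real.exp (θ * (k + 2))) *
        ({ω | (k : ℝ) + 1 ≤ Z ω}.indicator (fun _ => (1 : ℝ≥0∞)) ω) := by
    intro ω
    rcases lt_or_ge (Z ω) 1 with hz | hz
    · refine le_trans ?_ le_self_add
      apply ENNReal.ofReal_le_ofReal
      apply Real.exp_le_exp.2
      nlinarith
    · refine le_trans ?_ le_add_self
      obtain ⟨k, hk⟩ : ∃ k : ℕ, ⌊Z ω⌋₊ = k + 1 := by
        have h1 : 1 ≤ ⌊Z ω⌋₊ := Nat.le_floor (by simpa using hz)
        exact ⟨⌊Z ω⌋₊ - 1, by omega⟩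
      have h1 : (k : ℝ) + 1 ≤ Z ω := by
        have := Nat.floor_le (show 0 ≤ Z ω by linarith)
        rw [hk] at this; push_cast at this; exact this
      have h2 : Z ω < (k : ℝ) + 2 := by
        have := Nat.lt_floor_add_one (Z ω)
        rw [hk] at this; push_cast at this; linarith
      refine le_trans ?_ (ENNReal.le_tsum k)
      rw [Set.indicator_of_mem (by exact h1), mul_one]
      apply ENNReal.ofReal_le_ofReal
      apply Real.exp_le_exp.2
      nlinarith
  calc ∫⁻ ω, ENNReal.ofReal (Real.exp (θ * Z ω)) ∂μ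
      ≤ ∫⁻ ω, (ENNReal.ofReal (Real.exp θ) +
        ∑' k : ℕ, ENNReal.ofReal (Real.exp (θ * (k + 2))) *
        ({ω | (k : ℝ) + 1 ≤ Z ω}.indicator (fun _ => (1 : ℝ≥0∞)) ω)) ∂μ := lintegral_mono hpt
    _ = ENNReal.ofReal (Real.exp θ) + ∑' k : ℕ, ENNReal.ofReal (Real.exp (θ * (k + 2))) *
        μ {ω | (k : ℝ) + 1 ≤ Z ω} := by
        rw [lintegral_add_left measurable_const, lintegral_const, measure_univ, mul_one,
          lintegral_tsum (fun k => ((measurable_const.indicator (hmeas k)).const_mul _).aemeasurable)]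
        congr 1
        refine tsum_congr fun k => ?_
        rw [lintegral_const_mul _ (measurable_const.indicator (hmeas k)),
          lintegral_indicator (hmeas k), lintegral_const, one_mul, Measure.restrict_apply_univ]
    _ ≤ ENNReal.ofReal (Real.exp θ) + ∑' k : ℕ, ENNReal.ofReal (C0 * Real.exp (-θ) ^ k) := by
        gcongr with k
        rw [← ofReal_measureReal, ← ENNReal.ofReal_mul (Real.exp_pos _).le]
        apply ENNReal.ofReal_le_ofReal
        calc Real.exp (θ * (k + 2)) * μ.real {ω | (k : ℝ) + 1 ≤ Z ω}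
            ≤ Real.exp (θ * (k + 2)) * (C0 * Real.exp (-(2 * θ) * (k + 1))) := by
              gcongr; exact h k
          _ = C0 * (Real.exp (θ * (k + 2)) * Real.exp (-(2 * θ) * (k + 1))) := by ring
          _ = C0 * Real.exp (-θ) ^ k := by
              rw [← Real.exp_add, ← Real.exp_nat_mul]
              congr 2; ring
    _ = ENNReal.ofReal (Real.exp θ + C0 / (1 - Real.exp (-θ))) := by
        rw [← ENNReal.ofReal_tsum_of_nonneg (fun k => by positivity)
          ((summable_geometric_of_lt_one hr0 hr1).mul_left C0), tsum_mul_left,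
          tsum_geometric_of_lt_one hr0 hr1, ← ENNReal.ofReal_add (Real.exp_pos _).le]
        · rfl
        · have : 0 < 1 - Real.exp (-θ) := by linarith
          positivity

theorem L_pow (b : ℕ) : (((64 ^ (b + 1) : ℕ) : ℝ) ^ ((1 : ℝ) / 3) = 4 ^ (b + 1)) ∧
    (((64 ^ (b + 1) : ℕ) : ℝ) ^ ((2 : ℝ) / 3) = 16 ^ (b + 1)) := by
  have e1 : ((64 ^ (b + 1) : ℕ) : ℝ) = ((4 : ℝ) ^ (b + 1)) ^ 3 := by
    push_cast; rw [← pow_mul, mul_comm (b + 1) 3, pow_mul]; norm_num
  have e2 : (16 : ℝ) ^ (b + 1) = ((4 : ℝ) ^ (b + 1)) ^ 2 := by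
    rw [← pow_mul, mul_comm (b + 1) 2, pow_mul]; norm_num
  constructor
  · rw [e1, ← Real.rpow_natCast _ 3, ← Real.rpow_mul (by positivity)]
    norm_num
  · rw [e1, e2, ← Real.rpow_natCast _ 3, ← Real.rpow_mul (by positivity), ← Real.rpow_natCast _ 2]
    norm_num

theorem pf_ZEX : T_ZEX := by
  intro hB q hq0 hq1
  obtain ⟨C0, c0, hC0, hc0, hB⟩ := hB q hq0 hq1 (3 / 4) (by norm_num) (by norm_num)
  have hθ : 0 < c0 / 8 := by positivity
  have hr1 : Real.exp (-(c0 / 8)) < 1 := by rw [Real.exp_lt_one_iff]; linarith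
  refine ⟨Real.exp (c0 / 8) + C0 / (1 - Real.exp (-(c0 / 8))), c0 / 8, ?_, hθ, ?_⟩
  · have h1 : 1 ≤ Real.exp (c0 / 8) := Real.one_le_exp hθ.le
    have h2 : 0 < 1 - Real.exp (-(c0 / 8)) := by linarith
    have h3 : 0 < C0 / (1 - Real.exp (-(c0 / 8))) := by positivity
    linarith
  · intro b s x x' Z hZ hZc
    refine exp_moment (PE q) Z hZ C0 (c0 / 8) hC0.le hθ ?_
    intro k
    obtain ⟨l1, l2⟩ := L_pow b
    have hL := hB (64 ^ (b + 1)) (Nat.one_le_pow _ _ (by norm_num)) (s, 16 ^ b * x)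
      (((k : ℝ) + 1) / 4) (by positivity)
    have hexp : C0 * Real.exp (-c0 * (((k : ℝ) + 1) / 4)) =
        C0 * Real.exp (-(2 * (c0 / 8)) * (k + 1)) := by
      congr 2; ring
    rw [hexp] at hL
    refine le_trans (measureReal_mono ?_ (measure_ne_top _ _)) hL
    intro ω hω
    simp only [Set.mem_setOf_eq] at hω ⊢
    rcases hZc ω with h0 | ⟨y, y', h1, h2, h3, h4, h5, h6⟩
    · rw [h0] at hω
      exfalso
      have : (0 : ℝ) ≤ k := Nat.cast_nonneg k
      linarith
    · refine ⟨(s, y), (s + 64 ^ (b + 1), y'), le_rfl, ?_, ?_, h5, ?_, ?_⟩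
      · have : (0 : ℤ) < 64 ^ (b + 1) := by positivity
        simp only; omega
      · push_cast; exact le_rfl
      · left
        rw [l2]
        have e1 : (0 : ℤ) ≤ y - 16 ^ b * x := by linarith
        have e2 : y - 16 ^ b * x ≤ 16 ^ (b + 1) := by
          have : (16 : ℤ) ^ (b + 1) = 16 * 16 ^ b := by ring
          have h0 : (0 : ℤ) < 16 ^ b := by positivity
          nlinarith
        change |((y - 16 ^ b * x : ℤ) : ℝ)| ≤ _
        rw [abs_of_nonneg (by exact_mod_cast e1)]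
        exact_mod_cast e2
      · rw [l1]
        rw [h6, le_div_iff₀ (by positivity)] at hω
        have : ((k : ℝ) + 1) / 4 * 4 ^ (b + 1) = ((k : ℝ) + 1) * 4 ^ b := by ring
        rw [this]
        linarith

end Pool.Agent.H20.NT
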